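import Pool.Agent.MP_6a4325_al.H84.Spec3

/-! Row HL: induction on the Hirsch length of a big subgroup. -/

set_option autoImplicit false

namespace Pool.Agent.MP_6a4325_al.H49

open Pool.Agent.MP_6a4325_al.H62 Pool.Agent.MP_6a4325_al.H84

namespace Hl

variable {G Q : Type} [Group G] [Group Q] {Γ : Subgroup G}

theorem big_rel (h : Big Γ) {H : Subgroup G} (hH : H.FG) : Γ.relIndex H ≠ 0 :=
  fun e => h.2 (H ⊔ Γ) (hH.sup h.1) le_sup_right
    (Subgroup.relIndex_eq_zero_of_le_right le_sup_left e)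

theorem big_sub (h : Big Γ) (K : Subgroup Γ) (hK : K.FiniteIndex) : Big (K.map Γ.subtype) := by
  have : Group.FG Γ := (Group.fg_iff_subgroup_fg _).2 h.1
  refine ⟨H7.fg_map ((Group.fg_iff_subgroup_fg _).1 inferInstance) _, fun H hH _ =>
    Subgroup.relIndex_ne_zero_trans (K := Γ) ?_ (big_rel h hH)⟩
  rw [Subgroup.relIndex, Subgroup.subgroupOf,
    Subgroup.comap_map_eq_self_of_injective Γ.subtype_injective]
  exact hK.index_ne_zero

theorem big_map (h : Big Γ) (f : G →* Q) (hf : Function.Surjective f) : Big (Γ.map f) := by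
  refine ⟨H7.fg_map h.1 f, fun H hH _ => ?_⟩
  obtain ⟨P, hP, rfl⟩ := exists_fg_lift f hf hH
  have := finiteIndex_map (Γ.subgroupOf P) ⟨big_rel h hP⟩ _ (f.subgroupMap_surjective P)
  refine (Subgroup.finiteIndex_of_le (H := (Γ.subgroupOf P).map (f.subgroupMap P)) ?_).index_ne_zero
  rintro _ ⟨x, hx, rfl⟩
  exact ⟨x, hx, rfl⟩

theorem lf (h : Big Γ) [Finite Γ] : LF G := fun H hH => by
  have : (Γ.subgroupOf H).FiniteIndex := ⟨big_rel h hH⟩
  have : Finite (Γ.subgroupOf H) := Finite.of_injective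
    (fun x : Γ.subgroupOf H => (⟨x.1, x.2⟩ : Γ)) fun x y e =>
      Subtype.ext (Subtype.ext (Subtype.mk.inj e))
  exact Finite.of_equiv _ (Subgroup.groupEquivQuotientProdSubgroup (s := Γ.subgroupOf H)).symm

end Hl

open Hl in
theorem hl : PCApi → VsApi → SPoly → SPl → SPlb → SLft → SLfd → SExt3 → SHl := by
  intro hPC hV hPoly hPl hPlb hLft hLfd hExt p _
  have key : ∀ (n : ℕ) (G : Type) [Group G], LP G → W (ZMod p) G → ∀ Γ : Subgroup G, Big Γ →
      PC n Γ → PVS p G := fun n => by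
    induction n using Nat.strong_induction_on with
    | _ n ih =>
    intro G _ hL hW Γ hΓ hn
    rcases finite_or_infinite Γ with hf | hf
    · exact hLft p G (lf hΓ) hW
    obtain ⟨K, hK, A, hA⟩ := hPl Γ ⟨n, hn⟩ hf
    have hi : Function.Injective (Γ.subtype.comp K.subtype) :=
      Γ.subtype_injective.comp K.subtype_injective
    have hB := hPlb G K _ hi (by
      rw [MonoidHom.range_comp, Subgroup.range_subtype]
      exact big_sub hΓ K hK) A hA
    set B := Subgroup.normalClosure (A.map (Γ.subtype.comp K.subtype) : Set G)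
    have hq := QuotientGroup.mk'_surjective B
    obtain ⟨a, ha, h1⟩ := (Subgroup.bot_or_exists_ne_one A).resolve_left hA.2.1
    obtain ⟨m, hm, hp⟩ := hPC.quotInf n Γ _ _ ((QuotientGroup.mk' B).subgroupMap_surjective Γ)
      (Infinite.of_injective (fun z : ℕ => ⟨(a ^ z : K), Subtype.ext
        ((QuotientGroup.eq_one_iff _).2
          (Subgroup.subset_normalClosure ⟨a ^ z, A.pow_mem ha z, rfl⟩))⟩) fun x y e =>
        injective_pow_iff_not_isOfFinOrder.2 (fun o => h1 (hA.2.2.2.2.1 a ha o))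
          (Subtype.ext (Subtype.mk.inj e))) hn
    exact hExt p G B hL hW (hLfd p B hB (hW.sub B))
      (ih m hm _ (hV.lSurj _ _ _ hq hL) (hW.quot B) _ (big_map hΓ _ hq) hp)
  intro G _ hL hW Γ hΓ
  obtain ⟨N, -, hN, n, hn⟩ := hPoly Γ (hL Γ hΓ.1)
  exact key n G hL hW _ (big_sub hΓ N hN) (hPC.quot n N _ _ (Γ.subtype.subgroupMap_surjective N) hn)

end Pool.Agent.MP_6a4325_al.H49
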